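import Pool.Agent.MBX.Stmts

/-!
Row CCC of table mbx (MP_8cfbae_mp): the commutator of covariant derivatives.
-/

set_option autoImplicit false

open MeasureTheory Complex ProbabilityTheory

namespace Pool.Agent.MBX.H90

open Pool.Agent.Helper49_Pauli
open Pool.Agent.MBX

lemma cv_cv {V : X3 → X3} (hV : ∀ j, ContDiff ℝ (⊤ : ℕ∞) fun x => V x j) {g : X3 → ℂ}
    (hg : ContDiff ℝ (⊤ : ℕ∞) g) (i j : Fin 3) (x : X3) :
    cv V i (cv V j g) x =
      -(fderiv ℝ (fderiv ℝ g) x (Pi.single i 1) (Pi.single j 1)) -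
        I * ((pd i (fun z => V z j) x : ℝ) : ℂ) * g x -
        I * (V x j : ℂ) * fderiv ℝ g x (Pi.single i 1) -
        I * (V x i : ℂ) * fderiv ℝ g x (Pi.single j 1) + (V x i : ℂ) * (V x j : ℂ) * g x := by
  have hg1 : ContDiff ℝ 1 (fderiv ℝ g) := hg.fderiv_right
    (WithTop.coe_le_coe.2 (le_top : (2 : ℕ∞) ≤ ⊤))
  have h0 : HasFDerivAt (fderiv ℝ g) (fderiv ℝ (fderiv ℝ g) x) x :=
    (hg1.differentiable (by norm_num) x).hasFDerivAt
  have h1 : HasFDerivAt (fun z => fderiv ℝ g z (Pi.single j 1))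
      ((ContinuousLinearMap.apply ℝ ℂ (Pi.single j (1 : ℝ) : X3)).comp
        (fderiv ℝ (fderiv ℝ g) x)) x :=
    (ContinuousLinearMap.apply ℝ ℂ (Pi.single j (1 : ℝ) : X3)).hasFDerivAt.comp x h0
  have hVj : HasFDerivAt (fun z => V z j) (fderiv ℝ (fun z => V z j) x) x :=
    ((hV j).differentiable (by norm_num) x).hasFDerivAt
  have h2 : HasFDerivAt (fun z => ((V z j : ℝ) : ℂ))
      (Complex.ofRealCLM.comp (fderiv ℝ (fun z => V z j) x)) x :=
    Complex.ofRealCLM.hasFDerivAt.comp x hVj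
  have hgx : HasFDerivAt g (fderiv ℝ g x) x := (hg.differentiable (by norm_num) x).hasFDerivAt
  have h3 := h2.mul hgx
  have h4 := (h1.const_mul (-I)).add h3
  have h5 : fderiv ℝ (cv V j g) x = _ := h4.fderiv
  have h6 : cv V i (cv V j g) x =
      -I * fderiv ℝ (cv V j g) x (Pi.single i 1) + (V x i : ℂ) * cv V j g x := rfl
  rw [h6, h5]
  unfold cv pd
  simp only [add_apply, smul_apply,
    ContinuousLinearMap.comp_apply, ContinuousLinearMap.apply_apply, smul_eq_mul,
    Complex.ofRealCLM_apply]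
  linear_combination (fderiv ℝ (fderiv ℝ g) x (Pi.single i 1) (Pi.single j 1)) * I_mul_I

theorem ccc (hx : XibStmt) : CccStmt := by
  intro V hV f g hf hg i j
  have h1 := (hx V hV g g hg hg j).1
  have h2 := (hx V hV g g hg hg i).1
  have e1 := (hx V hV f _ hf h1 i).2
  have e2 := (hx V hV f _ hf h2 j).2
  have h3 := (hx V hV _ _ h1 h1 i).1
  have h4 := (hx V hV _ _ h2 h2 j).1
  rw [e1, e2]
  have hcf : Continuous fun x => (starRingEnd ℂ) (f x) :=
    Complex.continuous_conj.comp hf.1.continuous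
  have hi1 : Integrable fun x => (starRingEnd ℂ) (f x) * cv V i (cv V j g) x :=
    (hcf.mul h3.1.continuous).integrable_of_hasCompactSupport h3.2.mul_left
  have hi2 : Integrable fun x => (starRingEnd ℂ) (f x) * cv V j (cv V i g) x :=
    (hcf.mul h4.1.continuous).integrable_of_hasCompactSupport h4.2.mul_left
  rw [← integral_sub hi1 hi2, ← integral_const_mul]
  refine integral_congr_ae (Filter.Eventually.of_forall fun x => ?_)
  have hsym : IsSymmSndFDerivAt ℝ g x :=
    (hg.1.contDiffAt).isSymmSndFDerivAt (by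
      rw [minSmoothness_of_isRCLikeNormedField]
      exact WithTop.coe_le_coe.2 (le_top : (2 : ℕ∞) ≤ ⊤))
  have hs := hsym (Pi.single i 1) (Pi.single j 1)
  show (starRingEnd ℂ) (f x) * cv V i (cv V j g) x - (starRingEnd ℂ) (f x) * cv V j (cv V i g) x =
    -I * (((pd i (fun z => V z j) x - pd j (fun z => V z i) x : ℝ) : ℂ) *
      ((starRingEnd ℂ) (f x) * g x))
  rw [cv_cv hV hg.1, cv_cv hV hg.1, hs, Complex.ofReal_sub]
  ring

end Pool.Agent.MBX.H90
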